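import Pool.Agent.Lib.MP_6bc78b_nt.MS.QZ.Iface2
import Pool.Agent.Lib.MP_6bc78b_nt.MS.P4.H30.Zfac

/-! Project MS, Part QZ, module TYP: the typical size of the mollifier at the zeros. -/

set_option autoImplicit false

open Complex Filter Topology MeasureTheory ArithmeticFunction

namespace Pool.Agent.Lib.MP_6bc78b_nt.MS.QZ.H62

open Pool.Agent.Lib.MP_6bc78b_nt.MS Pool.Agent.Lib.MP_6bc78b_nt.MS.P1
open Pool.Agent.Lib.MP_6bc78b_nt.MS.QZ

namespace Typ

lemma zfin (T : ℝ) : (zset T).Finite := P4.H30.zfac.2.2.2.2.2.2 T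

/-- The zeros in the window, as a finite set. -/
noncomputable def ZZ (T : ℝ) : Finset ℝ := (zfin T).toFinset

lemma mem_ZZ (T γ : ℝ) : γ ∈ ZZ T ↔ γ ∈ zset T := Set.Finite.mem_toFinset _

open Classical in
lemma fsum_filter (T : ℝ) (P : ℝ → Prop) (f : ℝ → ℝ) :
    ∑ᶠ γ ∈ {γ | γ ∈ zset T ∧ P γ}, f γ = ∑ γ ∈ (ZZ T).filter P, f γ := by
  have e : {γ | γ ∈ zset T ∧ P γ} = (((ZZ T).filter P : Finset ℝ) : Set ℝ) := by
    ext γ
    simp [mem_ZZ]
  rw [e, finsum_mem_coe_finset]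

lemma fsum_all (T : ℝ) (f : ℝ → ℝ) :
    ∑ᶠ γ ∈ zset T, f γ = ∑ γ ∈ ZZ T, f γ := by
  have e : zset T = ((ZZ T : Finset ℝ) : Set ℝ) := by
    ext γ
    simp [mem_ZZ]
  rw [e, finsum_mem_coe_finset]

/-- Sums of the scales below `j`. -/
lemma sum_dl_le (T : ℝ) (hT : 0 < ll T) (j : ℕ) : ∑ i ∈ Finset.range j, dl T i ≤ dl T j := by
  have hp : ∀ i, 0 < dl T i := fun i => div_pos (Real.exp_pos _) (by positivity)
  induction j with
  | zero => simpa using (hp 0).le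
  | succ j ih =>
    rw [Finset.sum_range_succ]
    have e : dl T (j + 1) = Real.exp 1 * dl T j := by
      unfold dl
      push_cast
      rw [Real.exp_add]
      ring
    have h2 : (2 : ℝ) ≤ Real.exp 1 := by
      have := Real.add_one_le_exp (1 : ℝ)
      linarith
    rw [e]
    have := hp j
    nlinarith

lemma ll_tendsto : Tendsto ll atTop atTop := Real.tendsto_log_atTop.comp Real.tendsto_log_atTop

lemma sqrt_ll_tendsto : Tendsto (fun T => Real.sqrt (ll T)) atTop atTop :=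
  Real.tendsto_sqrt_atTop.comp ll_tendsto

lemma JJ_ge (m : ℕ) : ∀ᶠ T : ℝ in atTop, m + 1 ≤ JJ T := by
  have h : Tendsto (fun T : ℝ => Real.log (ll T ^ 2 / 10 ^ 12)) atTop atTop := by
    apply Real.tendsto_log_atTop.comp
    apply Tendsto.atTop_div_const (by positivity)
    exact (tendsto_pow_atTop (by norm_num)).comp ll_tendsto
  filter_upwards [h.eventually_ge_atTop (m : ℝ)] with T hT
  unfold JJ
  have : m ≤ ⌊Real.log (ll T ^ 2 / 10 ^ 12)⌋₊ := Nat.le_floor hT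
  omega

lemma cGL_ge : ∀ᶠ T : ℝ in atTop, 1 ≤ cG T * Real.log T := by
  filter_upwards [eventually_ge_atTop (4 : ℝ), Real.tendsto_log_atTop.eventually_ge_atTop 1]
    with T h4 hL
  have hL0 : 0 < Real.log T := by linarith
  have h1 : Real.log T ^ (2 / 3 : ℝ) ≤ Real.log T := by
    calc Real.log T ^ (2 / 3 : ℝ) ≤ Real.log T ^ (1 : ℝ) :=
          Real.rpow_le_rpow_of_exponent_le hL (by norm_num)
      _ = Real.log T := Real.rpow_one _
  have hp : 0 < Real.log T ^ (2 / 3 : ℝ) := Real.rpow_pos_of_pos hL0 _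
  have hs : Real.sqrt Real.pi ≤ 2 := by
    rw [Real.sqrt_le_left (by norm_num)]
    have := Real.pi_le_four
    linarith
  have hs0 : 0 < Real.sqrt Real.pi := Real.sqrt_pos.2 Real.pi_pos
  have e : cG T * Real.log T = T * Real.log T / (Real.log T ^ (2 / 3 : ℝ) *
      (2 * Real.sqrt Real.pi)) := by
    unfold cG DD
    field_simp
  rw [e, le_div_iff₀ (by positivity), one_mul]
  calc Real.log T ^ (2 / 3 : ℝ) * (2 * Real.sqrt Real.pi)
      ≤ Real.log T * (2 * 2) := by gcongr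
    _ ≤ T * Real.log T := by nlinarith

/-- The exponential factor kills the polynomial one. -/
lemma exp_small (a b e : ℝ) (ha : 0 ≤ a) (hb : 0 ≤ b) (he : 0 < e) :
    ∀ᶠ T : ℝ in atTop, Real.exp (4 - 2 * Real.sqrt (ll T)) * (a * ll T ^ 2 + b) ≤ e := by
  have h1 : Tendsto (fun x : ℝ => Real.exp 4 * (a * (x ^ 4 * Real.exp (-x)) +
      b * (x ^ 0 * Real.exp (-x)))) atTop (𝓝 (Real.exp 4 * (a * 0 + b * 0))) :=
    (((Real.tendsto_pow_mul_exp_neg_atTop_nhds_zero 4).const_mul a).add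
      ((Real.tendsto_pow_mul_exp_neg_atTop_nhds_zero 0).const_mul b)).const_mul _
  have h2 := h1.comp sqrt_ll_tendsto
  simp only [mul_zero, add_zero] at h2
  filter_upwards [h2.eventually_lt_const he, ll_tendsto.eventually_ge_atTop 0] with T hT hl
  set x := Real.sqrt (ll T) with hx
  have hx0 : 0 ≤ x := Real.sqrt_nonneg _
  have hxx : ll T = x ^ 2 := (Real.sq_sqrt hl).symm
  have h3 : Real.exp (4 - 2 * x) ≤ Real.exp 4 * Real.exp (-x) := by
    rw [← Real.exp_add]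
    exact Real.exp_le_exp.2 (by linarith)
  have h4 : 0 ≤ a * ll T ^ 2 + b := by positivity
  calc Real.exp (4 - 2 * x) * (a * ll T ^ 2 + b)
      ≤ (Real.exp 4 * Real.exp (-x)) * (a * ll T ^ 2 + b) := by gcongr
    _ = Real.exp 4 * (a * (x ^ 4 * Real.exp (-x)) + b * (x ^ 0 * Real.exp (-x))) := by
        rw [hxx]; ring
    _ ≤ e := hT.le

/-- The product of the truncated exponentials is not small. -/
lemma prod_te (h3 : TayStatement) (T : ℝ) (j : ℕ) (w : ℕ → ℂ)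
    (hR : ∀ i, i < j → 1 ≤ RJ T i ∧ 10 * RJ T i ≤ KJ T i)
    (hs : ∑ i ∈ Finset.range j, Real.exp (-RJ T i) ≤ 1)
    (hw : ∀ i, i < j → ‖w i‖ ≤ RJ T i) (b : ℝ) (hb : ‖∑ i ∈ Finset.range j, w i‖ ≤ b) :
    1 ≤ Real.exp (4 + 2 * b) *
      ‖∏ i ∈ Finset.range j, te (KJ T i) (((1 : ℝ) : ℂ) * w i)‖ ^ 2 := by
  have h1 : ∏ i ∈ Finset.range j, Real.exp (2 * 1 * (w i).re) ≤
      ∏ i ∈ Finset.range j, (Real.exp (4 * Real.exp (-RJ T i)) *
        ‖te (KJ T i) (((1 : ℝ) : ℂ) * w i)‖ ^ 2) := by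
    apply Finset.prod_le_prod
    · intro i _
      positivity
    · intro i hi
      have hi' := Finset.mem_range.1 hi
      exact h3 (RJ T i) 1 (KJ T i) (w i) (hR i hi').1 (by simp) (hw i hi') (hR i hi').2
  rw [Finset.prod_mul_distrib, ← Real.exp_sum, ← Real.exp_sum,
    Finset.prod_pow, ← norm_prod] at h1
  simp only [← Finset.mul_sum, ← Complex.re_sum, mul_one] at h1
  set P := ‖∏ i ∈ Finset.range j, te (KJ T i) (((1 : ℝ) : ℂ) * w i)‖ ^ 2 with hP
  have hP0 : 0 ≤ P := by positivity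
  have h4 : -b ≤ (∑ i ∈ Finset.range j, w i).re := by
    have := Complex.abs_re_le_norm (∑ i ∈ Finset.range j, w i)
    have := abs_le.1 this
    linarith [this.1]
  have h5 : Real.exp (-2 * b) ≤ Real.exp 4 * P := by
    calc Real.exp (-2 * b) ≤ Real.exp (2 * (∑ i ∈ Finset.range j, w i).re) :=
          Real.exp_le_exp.2 (by linarith)
      _ ≤ Real.exp (4 * ∑ i ∈ Finset.range j, Real.exp (-RJ T i)) * P := h1
      _ ≤ Real.exp 4 * P := by
          gcongr
          linarith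
  calc (1 : ℝ) = Real.exp (2 * b) * Real.exp (-2 * b) := by
        rw [← Real.exp_add]; simp
    _ ≤ Real.exp (2 * b) * (Real.exp 4 * P) := by gcongr
    _ = Real.exp (4 + 2 * b) * P := by rw [Real.exp_add]; ring

end Typ

open Typ in
/-- TYP: the typical size of the mollifier at the zeros. -/
theorem typ (h1 : BadStatement) (h2 : PsvStatement) (h3 : TayStatement) (h4 : Cf0Statement)
    (h5 : Pi0Statement) (h6 : DmvStatement) (h7 : Na0Statement) (h8 : SclStatement) :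
    TypStatement := by
  classical
  intro th c1 c2 ε hth hth2 hε
  obtain ⟨C1, T1, hC1, -, hbad⟩ := h1
  obtain ⟨C2, T2, hC2, -, hpsv⟩ := h2
  obtain ⟨T4, -, hcf⟩ := h4 th c1 c2 hth hth2
  obtain ⟨T5, -, hpi⟩ := h5 th c1 c2 hth hth2
  obtain ⟨C3, T6, hC3, -, hdmv⟩ := h6 (9 / 10 - th) (by linarith) (by linarith)
  obtain ⟨C4, T7, hC4, -, hna⟩ := h7 th c1 c2 hth hth2
  obtain ⟨T8, -, hscl⟩ := h8
  obtain ⟨m, hm⟩ : ∃ m : ℕ, C1 * Real.exp (-(m : ℝ)) ≤ ε / 3 := by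
    have ht : Tendsto (fun m : ℕ => C1 * Real.exp (-(m : ℝ))) atTop (𝓝 (C1 * 0)) :=
      (Real.tendsto_exp_neg_atTop_nhds_zero.comp tendsto_natCast_atTop_atTop).const_mul C1
    rw [mul_zero] at ht
    obtain ⟨m, hm⟩ := (ht.eventually_lt_const (by positivity : (0 : ℝ) < ε / 3)).exists
    exact ⟨m, hm.le⟩
  obtain ⟨B, hB0, hB⟩ : ∃ B : ℝ, 0 < B ∧ C2 / B ^ 2 ≤ ε / 3 := by
    refine ⟨Real.sqrt (3 * C2 / ε), Real.sqrt_pos.2 (by positivity), ?_⟩
    rw [Real.sq_sqrt (by positivity)]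
    apply le_of_eq
    field_simp
  set K : ℝ := 10 ^ 12 * Real.exp m with hK
  have hK0 : 0 < K := by positivity
  refine ⟨B + 1, by linarith, ?_⟩
  filter_upwards [eventually_ge_atTop T1, eventually_ge_atTop T2, eventually_ge_atTop T4,
    eventually_ge_atTop T5, eventually_ge_atTop T6, eventually_ge_atTop T7,
    eventually_ge_atTop T8, eventually_ge_atTop (1 : ℝ), JJ_ge m, cGL_ge,
    exp_small (C3 * C4 * K ^ 2) C3 (ε / 3) (by positivity) hC3.le (by positivity)]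
    with T hT1 hT2 hT4 hT5 hT6 hT7 hT8 hT0 hJ hL hexp
  obtain ⟨hl, -, hdl, hdlJ, hRJ, -, -, hsR⟩ := hscl T hT8
  have hl0 : 0 < ll T := by linarith
  set L : ℝ := cG T * Real.log T with hLdef
  set j : ℕ := JJ T - m with hj
  have hj1 : 1 ≤ j := by omega
  have hj2 : j ≤ JJ T := by omega
  set s : ℝ := Real.sqrt (ll T) with hs
  have hs0 : 0 ≤ s := Real.sqrt_nonneg _
  have hss : s ^ 2 = ll T := Real.sq_sqrt hl0.le
  -- the scale `j`
  have hdj : dl T j = dl T (JJ T) * Real.exp (-(m : ℝ)) := by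
    unfold dl
    have e : ((j : ℕ) : ℝ) = (JJ T : ℝ) + -(m : ℝ) := by
      rw [hj, Nat.cast_sub (by omega)]
      ring
    rw [e, Real.exp_add]
    ring
  have hem : 0 < Real.exp (-(m : ℝ)) := Real.exp_pos _
  have hdj0 : 0 < dl T j := by
    rw [hdj]
    exact mul_pos (by linarith [hdlJ.1]) hem
  have hdj1 : dl T j ≤ Real.exp (-(m : ℝ)) := by
    rw [hdj]
    have := hdlJ.2
    nlinarith
  have hdj2 : 1 / dl T j ≤ K := by
    rw [div_le_iff₀ hdj0, hdj, hK]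
    have e : Real.exp (m : ℝ) * Real.exp (-(m : ℝ)) = 1 := by
      rw [← Real.exp_add]; simp
    have := hdlJ.1
    calc (1 : ℝ) = 10 ^ 12 * (Real.exp (m : ℝ) * Real.exp (-(m : ℝ))) * (1 / 10 ^ 12) := by
          rw [e]; norm_num
      _ ≤ 10 ^ 12 * (Real.exp (m : ℝ) * Real.exp (-(m : ℝ))) * dl T (JJ T) := by gcongr
      _ = 10 ^ 12 * Real.exp (m : ℝ) * (dl T (JJ T) * Real.exp (-(m : ℝ))) := by ring
  have hsd : ∑ i ∈ Finset.range j, dl T i ≤ Real.exp (-(m : ℝ)) :=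
    (sum_dl_le T hl0 j).trans hdj1
  have hsRj : ∑ i ∈ Finset.range j, Real.exp (-RJ T i) ≤ 1 := by
    refine le_trans ?_ hsR
    apply Finset.sum_le_sum_of_subset_of_nonneg
    · intro i hi
      exact Finset.mem_range.2 (lt_of_lt_of_le (Finset.mem_range.1 hi) hj2)
    · intro i _ _
      positivity
  -- the weights
  set f : ℝ → ℝ := fun γ => (mz γ : ℝ) * wt T γ with hf
  have hf0 : ∀ γ, 0 ≤ f γ := fun γ => mul_nonneg (Nat.cast_nonneg _) (Real.exp_pos _).le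
  set X : ℕ → ℝ → ℂ := fun i γ => PS (SS T i) (1 / 2 + γ * I) with hX
  set Y : ℝ → ℂ := fun γ => ∑ i ∈ Finset.range j, X i γ with hY
  set M : ℝ → ℂ := fun γ => MM th c1 c2 T (1 / 2 + γ * I) with hM
  set P : ℝ → ℂ := fun γ => ∏ i ∈ Finset.range j, te (KJ T i) (((1 : ℝ) : ℂ) * X i γ) with hP
  set G : ℝ → ℝ := fun γ => ∑ i ∈ Finset.range j, (if RJ T i < ‖X i γ‖ then (1 : ℝ) else 0) +
    (1 / (B ^ 2 * ll T) * ‖Y γ‖ ^ 2 + Real.exp (4 - 2 * s) * ‖M γ * P γ‖ ^ 2) with hG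
  have hG1 : ∀ γ, 0 ≤ ∑ i ∈ Finset.range j, (if RJ T i < ‖X i γ‖ then (1 : ℝ) else 0) := by
    intro γ
    apply Finset.sum_nonneg
    intro i _
    split_ifs <;> norm_num
  have hG0 : ∀ γ, 0 ≤ G γ := by
    intro γ
    have h := hG1 γ
    have h' : 0 ≤ 1 / (B ^ 2 * ll T) * ‖Y γ‖ ^ 2 + Real.exp (4 - 2 * s) * ‖M γ * P γ‖ ^ 2 := by
      positivity
    exact add_nonneg h h'
  have hpt : ∀ γ, Real.exp ((B + 1) * s) < ‖M γ‖ → 1 ≤ G γ := by
    intro γ hγ
    have ha := hG1 γ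
    have hb : 0 ≤ 1 / (B ^ 2 * ll T) * ‖Y γ‖ ^ 2 := by positivity
    have hc : 0 ≤ Real.exp (4 - 2 * s) * ‖M γ * P γ‖ ^ 2 := by positivity
    by_cases hx : ∃ i ∈ Finset.range j, RJ T i < ‖X i γ‖
    · obtain ⟨i, hi, hxi⟩ := hx
      have h : (1 : ℝ) ≤ ∑ i ∈ Finset.range j, (if RJ T i < ‖X i γ‖ then (1 : ℝ) else 0) := by
        calc (1 : ℝ) = (if RJ T i < ‖X i γ‖ then (1 : ℝ) else 0) := by rw [if_pos hxi]
          _ ≤ _ := Finset.single_le_sum (f := fun i =>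
              (if RJ T i < ‖X i γ‖ then (1 : ℝ) else 0))
              (fun i _ => by split_ifs <;> norm_num) hi
      show 1 ≤ _ + (_ + _)
      linarith
    · push Not at hx
      by_cases hy : B * s < ‖Y γ‖
      · have h : 1 ≤ 1 / (B ^ 2 * ll T) * ‖Y γ‖ ^ 2 := by
          rw [div_mul_eq_mul_div, one_mul, le_div_iff₀ (by positivity), one_mul, ← hss,
            ← mul_pow]
          exact pow_le_pow_left₀ (by positivity) hy.le 2
        show 1 ≤ _ + (_ + _)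
        linarith
      · push Not at hy
        have h := prod_te h3 T j (fun i => X i γ)
          (fun i hi => ⟨(hRJ i (by omega)).1, (hRJ i (by omega)).2.1⟩) hsRj
          (fun i hi => hx i (Finset.mem_range.2 hi)) (B * s) hy
        have h' : 1 ≤ Real.exp (4 - 2 * s) * ‖M γ * P γ‖ ^ 2 := by
          have hMs : Real.exp ((B + 1) * s) ^ 2 ≤ ‖M γ‖ ^ 2 :=
            pow_le_pow_left₀ (Real.exp_pos _).le hγ.le 2
          calc (1 : ℝ) ≤ Real.exp (4 + 2 * (B * s)) * ‖P γ‖ ^ 2 := h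
            _ = Real.exp (4 - 2 * s) * (Real.exp ((B + 1) * s) ^ 2 * ‖P γ‖ ^ 2) := by
                have e : Real.exp (4 + 2 * (B * s)) =
                    Real.exp (4 - 2 * s) * Real.exp ((B + 1) * s) ^ 2 := by
                  rw [← Real.exp_nat_mul, ← Real.exp_add]
                  congr 1
                  push_cast
                  ring
                rw [e]
                ring
            _ ≤ Real.exp (4 - 2 * s) * (‖M γ‖ ^ 2 * ‖P γ‖ ^ 2) := by gcongr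
            _ = Real.exp (4 - 2 * s) * ‖M γ * P γ‖ ^ 2 := by
                rw [norm_mul, mul_pow]
        show 1 ≤ _ + (_ + _)
        linarith
  -- the three sums
  have hS1 : ∑ γ ∈ ZZ T, f γ * ∑ i ∈ Finset.range j,
      (if RJ T i < ‖X i γ‖ then (1 : ℝ) else 0) ≤ ε / 3 * L := by
    have e : ∑ γ ∈ ZZ T, f γ * ∑ i ∈ Finset.range j,
        (if RJ T i < ‖X i γ‖ then (1 : ℝ) else 0) =
        ∑ i ∈ Finset.range j, ∑ γ ∈ (ZZ T).filter (fun γ => RJ T i < ‖X i γ‖), f γ := by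
      rw [Finset.sum_congr rfl (fun γ _ => Finset.mul_sum _ _ _), Finset.sum_comm]
      apply Finset.sum_congr rfl
      intro i _
      rw [Finset.sum_filter]
      apply Finset.sum_congr rfl
      intro γ _
      split_ifs <;> simp
    rw [e]
    calc ∑ i ∈ Finset.range j, ∑ γ ∈ (ZZ T).filter (fun γ => RJ T i < ‖X i γ‖), f γ
        ≤ ∑ i ∈ Finset.range j, C1 * dl T i * L := by
          apply Finset.sum_le_sum
          intro i hi
          have h := hbad T hT1 i (lt_of_lt_of_le (Finset.mem_range.1 hi) hj2)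
          rw [fsum_filter] at h
          exact h
      _ = C1 * L * ∑ i ∈ Finset.range j, dl T i := by
          rw [Finset.mul_sum]
          apply Finset.sum_congr rfl
          intro i _
          ring
      _ ≤ C1 * L * Real.exp (-(m : ℝ)) := by gcongr
      _ = C1 * Real.exp (-(m : ℝ)) * L := by ring
      _ ≤ ε / 3 * L := by gcongr
  have hS2 : ∑ γ ∈ ZZ T, f γ * (1 / (B ^ 2 * ll T) * ‖Y γ‖ ^ 2) ≤ ε / 3 * L := by
    have h := hpsv T hT2 j hj2
    rw [fsum_all] at h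
    calc ∑ γ ∈ ZZ T, f γ * (1 / (B ^ 2 * ll T) * ‖Y γ‖ ^ 2)
        = 1 / (B ^ 2 * ll T) * ∑ γ ∈ ZZ T, f γ * ‖Y γ‖ ^ 2 := by
          rw [Finset.mul_sum]
          apply Finset.sum_congr rfl
          intro γ _
          ring
      _ ≤ 1 / (B ^ 2 * ll T) * (C2 * L * ll T) := by gcongr
      _ = C2 / B ^ 2 * L := by field_simp
      _ ≤ ε / 3 * L := by gcongr
  have hS3 : ∑ γ ∈ ZZ T, f γ * (Real.exp (4 - 2 * s) * ‖M γ * P γ‖ ^ 2) ≤ ε / 3 * L := by
    have ecf := fun n => (hcf T hT4 1 j 0 (by simp) hj2 (by simp) n).1.1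
    have h := hdmv T hT6 (bet th c1 c2 T * gA 1 T j 0) ecf
    have ee : (1 : ℝ) - (9 / 10 - th) = th + 1 / 10 := by ring
    rw [fsum_all, ee] at h
    have epi : ∀ γ : ℝ, dpoly (bet th c1 c2 T * gA 1 T j 0) (T ^ (th + 1 / 10))
        (1 / 2 + γ * I) = M γ * P γ := by
      intro γ
      rw [(hpi T hT5 1 j 0 (by simp) hj2 (by simp) (1 / 2 + γ * I)).1, pow_zero, mul_one]
    simp only [epi] at h
    have hn : ∑ n ∈ Finset.Icc 1 ⌊T ^ (th + 1 / 10)⌋₊,
        ((bet th c1 c2 T * gA 1 T j 0) n) ^ 2 / (n : ℝ) ≤ C4 * ll T ^ 2 * K ^ 2 := by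
      calc ∑ n ∈ Finset.Icc 1 ⌊T ^ (th + 1 / 10)⌋₊,
            ((bet th c1 c2 T * gA 1 T j 0) n) ^ 2 / (n : ℝ)
          ≤ ∑ n ∈ Finset.Icc 1 ⌊T⌋₊, ((bet th c1 c2 T * gA 1 T j 0) n) ^ 2 / (n : ℝ) := by
            apply Finset.sum_le_sum_of_subset_of_nonneg
            · apply Finset.Icc_subset_Icc_right
              apply Nat.floor_le_floor
              calc T ^ (th + 1 / 10) ≤ T ^ (1 : ℝ) :=
                    Real.rpow_le_rpow_of_exponent_le hT0 (by linarith)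
                _ = T := Real.rpow_one T
            · intro n _ _
              positivity
        _ ≤ C4 * ll T ^ 2 * (1 / dl T j) ^ 2 := hna T hT7 j hj1 hj2
        _ ≤ C4 * ll T ^ 2 * K ^ 2 := by gcongr
    calc ∑ γ ∈ ZZ T, f γ * (Real.exp (4 - 2 * s) * ‖M γ * P γ‖ ^ 2)
        = Real.exp (4 - 2 * s) * ∑ γ ∈ ZZ T, f γ * ‖M γ * P γ‖ ^ 2 := by
          rw [Finset.mul_sum]
          apply Finset.sum_congr rfl
          intro γ _
          ring
      _ ≤ Real.exp (4 - 2 * s) * (C3 * (L * ∑ n ∈ Finset.Icc 1 ⌊T ^ (th + 1 / 10)⌋₊,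
            ((bet th c1 c2 T * gA 1 T j 0) n) ^ 2 / (n : ℝ) + 1)) := by
          apply mul_le_mul_of_nonneg_left h (Real.exp_pos _).le
      _ ≤ Real.exp (4 - 2 * s) * (C3 * (L * (C4 * ll T ^ 2 * K ^ 2) + L)) := by
          gcongr
      _ = Real.exp (4 - 2 * s) * (C3 * C4 * K ^ 2 * ll T ^ 2 + C3) * L := by ring
      _ ≤ ε / 3 * L := by gcongr
  refine (le_of_eq (fsum_filter T (fun γ => Real.exp ((B + 1) * s) < ‖M γ‖) f)).trans ?_
  calc ∑ γ ∈ (ZZ T).filter (fun γ => Real.exp ((B + 1) * s) < ‖M γ‖), f γ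
      ≤ ∑ γ ∈ (ZZ T).filter (fun γ => Real.exp ((B + 1) * s) < ‖M γ‖), f γ * G γ := by
        apply Finset.sum_le_sum
        intro γ hγ
        have := hpt γ (Finset.mem_filter.1 hγ).2
        nlinarith [hf0 γ]
    _ ≤ ∑ γ ∈ ZZ T, f γ * G γ := by
        apply Finset.sum_le_sum_of_subset_of_nonneg (Finset.filter_subset _ _)
        intro γ _ _
        exact mul_nonneg (hf0 γ) (hG0 γ)
    _ = ∑ γ ∈ ZZ T, f γ * ∑ i ∈ Finset.range j, (if RJ T i < ‖X i γ‖ then (1 : ℝ) else 0) +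
        (∑ γ ∈ ZZ T, f γ * (1 / (B ^ 2 * ll T) * ‖Y γ‖ ^ 2) +
          ∑ γ ∈ ZZ T, f γ * (Real.exp (4 - 2 * s) * ‖M γ * P γ‖ ^ 2)) := by
        rw [← Finset.sum_add_distrib, ← Finset.sum_add_distrib]
        apply Finset.sum_congr rfl
        intro γ _
        rw [hG]
        ring
    _ ≤ ε / 3 * L + (ε / 3 * L + ε / 3 * L) := by linarith
    _ = ε * L := by ring

end Pool.Agent.Lib.MP_6bc78b_nt.MS.QZ.H62
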